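import Mathlib
import Pool.Agent.Q22.EG

/-!
# The edge-imbalance multiset is graphic

If every edge of a finite simple graph joins two vertices of different degrees, then the multiset
of the imbalances of its edges is the degree multiset of a simple graph.
-/

namespace Pool.Agent.Results.MP_440a65_co.ImbalanceGraphic
open Finset

/-- The imbalance `|deg u - deg v|` of the edge `uv`. -/
def imb {V : Type*} [Fintype V] (G : SimpleGraph V) [DecidableRel G.Adj] : Sym2 V → ℕ :=
  Sym2.lift ⟨fun u v => ((G.degree u : ℤ) - (G.degree v : ℤ)).natAbs, fun u v => by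
    dsimp only; omega⟩

/-- A finite multiset of natural numbers is graphic if it is the degree multiset of a simple graph
on `n` vertices for some `n` (necessarily the cardinality of the multiset). -/
def IsGraphic (M : Multiset ℕ) : Prop :=
  ∃ (n : ℕ) (H : SimpleGraph (Fin n)),
    M = (univ : Finset (Fin n)).val.map (fun i => (H.neighborSet i).ncard)

theorem imb_mk {V : Type*} [Fintype V] (G : SimpleGraph V) [DecidableRel G.Adj] (u v : V) :
    imb G s(u, v) = ((G.degree u : ℤ) - (G.degree v : ℤ)).natAbs := rfl

theorem arith (k D t h X c : ℤ) (hk : 1 ≤ k) (hkD : k + 1 ≤ D) (ht : 0 ≤ t) (htk : t ≤ k)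
    (hh : 0 ≤ h) (hh2 : h ≤ D - k + t) (hc : 2 * c = h * (h - 1))
    (hX : k * (D - k + t - h) + h * (D - 1) ≤ X + t + c) (hX2 : D - k + t ≤ X) :
    k * (D - 1) ≤ k * (k - 1) + X := by
  obtain ⟨s, rfl⟩ : ∃ s, D = k + s := ⟨D - k, by ring⟩
  have hs : 1 ≤ s := by linarith
  have h3 : 2 * k * s + 2 * (k - 1) * t + h * (2 * s - 1 - h) ≤ 2 * X := by nlinarith
  have hh3 : h ≤ s + t := by linarith
  have hX3 : s + t ≤ X := by linarith
  suffices k * s ≤ X by nlinarith
  by_cases h1 : h ≤ 2 * s - 1
  · have : 0 ≤ h * (2 * s - 1 - h) := mul_nonneg hh (by linarith)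
    have : 0 ≤ (k - 1) * t := mul_nonneg (by linarith) ht
    linarith
  · have h2 : 2 * s ≤ h := by linarith [Int.not_le.1 h1]
    rcases lt_or_ge k 3 with hk3 | hk3
    · have hk4 : k = 1 ∨ k = 2 := by omega
      rcases hk4 with rfl | rfl
      · linarith
      · have : s ≤ 2 := by linarith
        interval_cases s
        · interval_cases t
          · have : h ≤ 1 := by linarith
            linarith
          · have : h = 2 := by omega
            subst this; linarith
          · linarith
        · have : t = 2 := by omega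
          subst this
          have : h = 4 := by omega
          subst this; linarith
    · have e1 : h * (h + 1 - 2 * s) ≤ (s + t) * (t + 1 - s) := by
        calc h * (h + 1 - 2 * s) ≤ (s + t) * (h + 1 - 2 * s) :=
              mul_le_mul_of_nonneg_right hh3 (by linarith)
          _ ≤ (s + t) * (t + 1 - s) := mul_le_mul_of_nonneg_left (by linarith) (by linarith)
      have e2 : (s + t) * (t + 1 - s) ≤ t * (t + 1) := by nlinarith
      have e3 : t * (t + 1) ≤ t * (k + 1) := mul_le_mul_of_nonneg_left (by linarith) ht
      have e4 : t * (k + 1) ≤ t * (2 * (k - 1)) := mul_le_mul_of_nonneg_left (by linarith) ht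
      nlinarith

/-- a Bonferroni inequality -/
theorem bonf {α β : Type*} [DecidableEq α] [DecidableEq β] (W : Finset α) (I : α → Finset β)
    (hI : ∀ a ∈ W, ∀ b ∈ W, a ≠ b → (I a ∩ I b).card ≤ 1) :
    ∑ a ∈ W, (I a).card ≤ (W.biUnion I).card + W.card.choose 2 := by
  induction W using Finset.induction_on with
  | empty => simp
  | insert a W ha ih =>
    rw [sum_insert ha, biUnion_insert, card_insert_of_notMem ha]
    have h1 := ih (fun b hb c hc hbc => hI b (mem_insert_of_mem hb) c (mem_insert_of_mem hc) hbc)
    have h2 : (I a ∩ W.biUnion I).card ≤ W.card := by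
      have : I a ∩ W.biUnion I = W.biUnion (fun b => I a ∩ I b) := by
        ext x; simp only [mem_inter, mem_biUnion]
        constructor
        · rintro ⟨h, b, hb, hx⟩; exact ⟨b, hb, h, hx⟩
        · rintro ⟨b, hb, h, hx⟩; exact ⟨h, b, hb, hx⟩
      rw [this]
      refine card_biUnion_le.trans ?_
      calc ∑ b ∈ W, (I a ∩ I b).card ≤ ∑ b ∈ W, 1 := by
            apply sum_le_sum
            intro b hb
            exact hI a (mem_insert_self _ _) b (mem_insert_of_mem hb) (by rintro rfl; exact ha hb)
        _ = W.card := by simp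
    have h3 := card_union_add_card_inter (I a) (W.biUnion I)
    have h4 : (W.card + 1).choose 2 = W.card + W.card.choose 2 := by
      rw [Nat.choose_succ_succ' W.card 1, Nat.choose_one_right]
    omega

variable {V : Type*} [Fintype V] [DecidableEq V] (G : SimpleGraph V) [DecidableRel G.Adj]

theorem key (hG : ∀ u v, G.Adj u v → G.degree u ≠ G.degree v) (A : Finset (Sym2 V))
    (hA : A ⊆ G.edgeFinset) :
    ∑ e ∈ A, imb G e ≤ A.card * (A.card - 1)
      + ∑ e ∈ G.edgeFinset \ A, min (imb G e) A.card := by
  rcases A.eq_empty_or_nonempty with rfl | hne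
  · simp
  obtain ⟨e₀, he₀⟩ := hne
  have hVne : Nonempty V := by
    induction e₀ using Sym2.ind with
    | _ a b => exact ⟨a⟩
  obtain ⟨v, -, hv⟩ := exists_max_image univ (fun v => G.degree v) univ_nonempty
  have hmax : ∀ w, G.degree w ≤ G.degree v := fun w => hv w (mem_univ _)
  set D := G.degree v with hD
  have hk1 : 1 ≤ A.card := card_pos.2 ⟨e₀, he₀⟩
  -- bounds for the imbalance
  have himb : ∀ e ∈ G.edgeFinset, 1 ≤ imb G e ∧ imb G e ≤ D - 1 := by
    intro e he
    induction e using Sym2.ind with
    | _ a b =>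
      have hab : G.Adj a b := by simpa using he
      have h1 := hG a b hab
      have h2 : 0 < G.degree a := (G.degree_pos_iff_exists_adj a).2 ⟨b, hab⟩
      have h3 : 0 < G.degree b := (G.degree_pos_iff_exists_adj b).2 ⟨a, hab.symm⟩
      have h4 := hmax a
      have h5 := hmax b
      rw [imb_mk]
      omega
  have hsumA : ∑ e ∈ A, imb G e ≤ A.card * (D - 1) := by
    have := sum_le_card_nsmul A (imb G) (D - 1) (fun e he => (himb e (hA he)).2)
    simpa using this
  set k := A.card with hk
  rcases Nat.lt_or_ge k D with hkD | hkD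
  swap
  · have : k * (D - 1) ≤ k * (k - 1) := Nat.mul_le_mul_left _ (by omega)
    omega
  -- main case
  set inc := G.incidenceFinset v with hinc
  have hincE : inc ⊆ G.edgeFinset := G.incidenceFinset_subset v
  have hincc : inc.card = D := G.card_incidenceFinset_eq_degree v
  set t := (A \ inc).card with ht
  have hA1 : (A ∩ inc).card + t = k := by
    rw [ht, hk, add_comm]; exact card_sdiff_add_card_inter A inc
  set R' := (G.neighborFinset v).filter (fun w => s(v, w) ∉ A) with hR'
  have hRimg : R'.image (fun w => s(v, w)) = inc \ A := by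
    ext e
    induction e using Sym2.ind with
    | _ a b =>
      simp only [hR', mem_image, mem_filter, SimpleGraph.mem_neighborFinset, mem_sdiff, hinc,
        SimpleGraph.mem_incidenceFinset, SimpleGraph.mk'_mem_incidenceSet_iff]
      constructor
      · rintro ⟨w, ⟨h1, h2⟩, h3⟩
        rw [← h3]
        rw [Sym2.eq_iff] at h3
        rcases h3 with ⟨rfl, rfl⟩ | ⟨rfl, rfl⟩
        · exact ⟨⟨h1, Or.inl rfl⟩, h2⟩
        · exact ⟨⟨h1.symm, Or.inr rfl⟩, h2⟩
      · rintro ⟨⟨h1, rfl | rfl⟩, h2⟩
        · exact ⟨b, ⟨h1, h2⟩, rfl⟩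
        · exact ⟨a, ⟨h1.symm, by rwa [Sym2.eq_swap]⟩, Sym2.eq_swap⟩
  have hinj : Set.InjOn (fun w => s(v, w)) (R' : Set V) := by
    intro a _ b _ hab
    exact Sym2.congr_right.1 hab
  have hRc : R'.card + (A ∩ inc).card = D := by
    rw [← card_image_of_injOn hinj, hRimg, ← hincc, inter_comm]
    exact card_sdiff_add_card_inter inc A
  have hRsum : ∑ e ∈ inc \ A, min (imb G e) k = ∑ w ∈ R', min (D - G.degree w) k := by
    rw [← hRimg, sum_image hinj]
    apply sum_congr rfl
    intro w hw
    have := hmax w
    rw [imb_mk]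
    congr 1
    omega
  set W := R'.filter (fun w => D - G.degree w < k) with hW
  have hRadj : ∀ w ∈ R', G.Adj v w := fun w hw => by
    have := (mem_filter.1 hw).1
    simpa using this
  have hRsum2 : ∑ w ∈ R', min (D - G.degree w) k
      = k * (R'.card - W.card) + ∑ w ∈ W, (D - G.degree w) := by
    rw [← sum_filter_add_sum_filter_not R' (fun w => D - G.degree w < k), ← hW, add_comm]
    congr 1
    · rw [sum_congr rfl (g := fun _ => k), sum_const, smul_eq_mul, mul_comm]
      · congr 1
        have := card_filter_add_card_filter_not (s := R') (fun w => D - G.degree w < k)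
        rw [← hW] at this
        omega
      · intro w hw
        have := (mem_filter.1 hw).2
        omega
    · apply sum_congr rfl
      intro w hw
      have := (mem_filter.1 hw).2
      omega
  set I : V → Finset (Sym2 V) := fun w => (G.incidenceFinset w).erase s(v, w) with hI
  have hIcard : ∀ w ∈ W, (I w).card = G.degree w - 1 := by
    intro w hw
    have hadj := hRadj w (mem_filter.1 hw).1
    rw [hI]
    simp only
    rw [card_erase_of_mem, G.card_incidenceFinset_eq_degree]
    rw [SimpleGraph.mem_incidenceFinset, SimpleGraph.mk'_mem_incidenceSet_iff]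
    exact ⟨hadj, Or.inr rfl⟩
  have hIpair : ∀ a ∈ W, ∀ b ∈ W, a ≠ b → (I a ∩ I b).card ≤ 1 := by
    intro a _ b _ hab
    rw [card_le_one]
    have haux : ∀ e ∈ I a ∩ I b, e = s(a, b) := by
      intro e he
      simp only [hI, mem_inter, mem_erase, SimpleGraph.mem_incidenceFinset] at he
      exact (Sym2.mem_and_mem_iff hab).1 ⟨he.1.2.2, he.2.2.2⟩
    intro e he f hf
    rw [haux e he, haux f hf]
  have hbon := bonf W I hIpair
  set B := W.biUnion I with hB
  have hBE : B ⊆ G.edgeFinset := by
    intro e he
    obtain ⟨w, -, he⟩ := mem_biUnion.1 he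
    exact G.incidenceFinset_subset w (mem_of_mem_erase he)
  have hBinc : Disjoint B inc := by
    rw [disjoint_left]
    intro e he hei
    obtain ⟨w, hw, he⟩ := mem_biUnion.1 he
    have hadj := hRadj w (mem_filter.1 hw).1
    simp only [hI, mem_erase, SimpleGraph.mem_incidenceFinset] at he
    rw [hinc, SimpleGraph.mem_incidenceFinset] at hei
    exact he.1 ((Sym2.mem_and_mem_iff hadj.ne).1 ⟨hei.2, he.2.2⟩)
  have hBA : B.card ≤ (B \ A).card + t := by
    rw [← card_sdiff_add_card_inter B A]
    apply Nat.add_le_add_left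
    rw [ht]
    apply card_le_card
    intro e he
    rw [mem_inter] at he
    rw [mem_sdiff]
    exact ⟨he.2, fun h => (disjoint_left.1 hBinc) he.1 h⟩
  set X := ∑ e ∈ G.edgeFinset \ A, min (imb G e) k with hX
  have hX1 : ∑ e ∈ inc \ A, min (imb G e) k + (B \ A).card ≤ X := by
    have hdis : Disjoint (inc \ A) (B \ A) :=
      (hBinc.symm.mono_left sdiff_subset).mono_right sdiff_subset
    have h1 : (B \ A).card ≤ ∑ e ∈ B \ A, min (imb G e) k := by
      rw [card_eq_sum_ones]
      apply sum_le_sum
      intro e he
      have := (himb e (hBE (mem_sdiff.1 he).1)).1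
      omega
    calc _ ≤ ∑ e ∈ inc \ A, min (imb G e) k + ∑ e ∈ B \ A, min (imb G e) k := by omega
      _ = ∑ e ∈ (inc \ A) ∪ (B \ A), min (imb G e) k := (sum_union hdis).symm
      _ ≤ X := by
        apply sum_le_sum_of_subset
        apply union_subset
        · exact sdiff_subset_sdiff hincE (Subset.refl _)
        · exact sdiff_subset_sdiff hBE (Subset.refl _)
  have hX2 : (inc \ A).card ≤ X := by
    refine le_trans ?_ ((Nat.le_add_right _ _).trans hX1)
    rw [card_eq_sum_ones]
    apply sum_le_sum
    intro e he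
    have := (himb e (hincE (mem_sdiff.1 he).1)).1
    omega
  have hX2' : R'.card ≤ X := by
    rwa [← hRimg, card_image_of_injOn hinj] at hX2
  have hWsum : ∑ w ∈ W, (D - G.degree w) + ∑ w ∈ W, (I w).card = W.card * (D - 1) := by
    rw [← sum_add_distrib, sum_congr rfl (g := fun _ => D - 1), sum_const, smul_eq_mul]
    intro w hw
    rw [hIcard w hw]
    have hadj := hRadj w (mem_filter.1 hw).1
    have h3 : 0 < G.degree w := (G.degree_pos_iff_exists_adj w).2 ⟨v, hadj.symm⟩
    have h4 := hmax w
    omega
  have hWR : W.card ≤ R'.card := card_filter_le _ _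
  have htk : t ≤ k := by omega
  -- pass to integers
  have hchoose : 2 * ((W.card.choose 2 : ℕ) : ℤ) = (W.card : ℤ) * ((W.card : ℤ) - 1) := by
    have h1 := Nat.choose_two_right W.card
    have h2 : 2 ∣ W.card * (W.card - 1) := (Nat.even_mul_pred_self _).two_dvd
    have h3 : 2 * W.card.choose 2 = W.card * (W.card - 1) := by
      rw [h1]; exact Nat.mul_div_cancel' h2
    have h4 : (2 * W.card.choose 2 : ℤ) = ((W.card * (W.card - 1) : ℕ) : ℤ) := by
      exact_mod_cast h3
    rw [h4]
    rcases Nat.eq_zero_or_pos W.card with h0 | h0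
    · simp [h0]
    · push_cast [Nat.cast_sub h0]; ring
  have hmain : k * (R'.card - W.card) + W.card * (D - 1) ≤ X + t + W.card.choose 2 := by
    omega
  have hmainZ : (k : ℤ) * ((D : ℤ) - k + t - W.card) + (W.card : ℤ) * ((D : ℤ) - 1)
      ≤ (X : ℤ) + t + ((W.card.choose 2 : ℕ) : ℤ) := by
    have h1 : (R'.card : ℤ) = (D : ℤ) - k + t := by omega
    have h2 : ((R'.card - W.card : ℕ) : ℤ) = (D : ℤ) - k + t - W.card := by omega
    have h3 : ((D - 1 : ℕ) : ℤ) = (D : ℤ) - 1 := by omega
    have h4 : ((k * (R'.card - W.card) + W.card * (D - 1) : ℕ) : ℤ)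
        ≤ ((X + t + W.card.choose 2 : ℕ) : ℤ) := by exact_mod_cast hmain
    rw [Nat.cast_add, Nat.cast_mul, Nat.cast_mul, h2, h3] at h4
    push_cast at h4
    exact h4
  have hfin := arith k D t W.card X (W.card.choose 2 : ℕ) (by exact_mod_cast hk1)
    (by exact_mod_cast hkD) (by positivity) (by exact_mod_cast htk) (by positivity)
    (by omega) hchoose hmainZ (by omega)
  have h5 : (k * (D - 1) : ℕ) ≤ k * (k - 1) + X := by
    have h3 : ((D - 1 : ℕ) : ℤ) = (D : ℤ) - 1 := by omega
    have h4 : ((k - 1 : ℕ) : ℤ) = (k : ℤ) - 1 := by omega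
    have : ((k * (D - 1) : ℕ) : ℤ) ≤ ((k * (k - 1) + X : ℕ) : ℤ) := by
      rw [Nat.cast_mul, Nat.cast_add, Nat.cast_mul, h3, h4]
      exact hfin
    exact_mod_cast this
  omega

/-- parity of the sum of the imbalances -/
theorem even_imb : Even (∑ e ∈ G.edgeFinset, imb G e) := by
  -- `∑_e imb e ≡ ∑_{darts} deg ≡ ∑_v (deg v)^2 (mod 2)`
  have h1 : ∑ d : G.Dart, G.degree d.fst = ∑ v, G.degree v * G.degree v := by
    rw [← sum_fiberwise_of_maps_to (s := (univ : Finset G.Dart)) (t := univ)
      (g := fun d : G.Dart => d.fst) (fun _ _ => mem_univ _)]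
    apply sum_congr rfl
    intro v _
    rw [sum_congr rfl (g := fun _ => G.degree v), sum_const, smul_eq_mul,
      G.dart_fst_fiber_card_eq_degree]
    intro d hd
    rw [(mem_filter.1 hd).2]
  have h2 : ∑ d : G.Dart, G.degree d.fst
      = ∑ e ∈ G.edgeFinset, ∑ d ∈ univ.filter (fun d : G.Dart => d.edge = e),
          G.degree d.fst := by
    rw [← sum_fiberwise_of_maps_to (s := (univ : Finset G.Dart)) (t := G.edgeFinset)
      (g := fun d : G.Dart => d.edge) (fun d _ => by simp)]
  have h3 : ∀ e ∈ G.edgeFinset, ∃ r : ℕ,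
      imb G e + 2 * r = ∑ d ∈ univ.filter (fun d : G.Dart => d.edge = e), G.degree d.fst := by
    intro e he
    induction e using Sym2.ind with
    | _ a b =>
      have hab : G.Adj a b := by simpa using he
      let d : G.Dart := ⟨(a, b), hab⟩
      have hd : d.edge = s(a, b) := rfl
      have hfil : (univ.filter (fun d : G.Dart => d.edge = s(a, b))) = {d, d.symm} := by
        rw [← hd]
        exact d.edge_fiber
      rw [hfil, sum_pair (Ne.symm d.symm_ne)]
      change ∃ r, imb G s(a, b) + 2 * r = G.degree a + G.degree b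
      rw [imb_mk]
      refine ⟨min (G.degree a) (G.degree b), ?_⟩
      omega
  have h4 : Even (∑ v, G.degree v * G.degree v) := by
    have h5 : Even (∑ v, G.degree v) := by
      rw [G.sum_degrees_eq_twice_card_edges]; exact even_two_mul _
    have h6 : ∑ v, G.degree v * G.degree v
        = ∑ v, G.degree v + ∑ v, G.degree v * (G.degree v - 1) := by
      rw [← sum_add_distrib]
      apply sum_congr rfl
      intro v _
      have := Q22.EG.mul_pred_add (G.degree v)
      omega
    rw [h6]
    exact h5.add (Finset.even_sum _ (fun v _ => Nat.even_mul_pred_self _))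
  rw [← h1, h2] at h4
  choose! r hr using h3
  rw [← sum_congr rfl hr, sum_add_distrib, ← mul_sum] at h4
  rw [Nat.even_add] at h4
  exact h4.2 (even_two_mul _)

/-- **Main result.** -/
theorem result (hG : ∀ u v, G.Adj u v → 0 < imb G s(u, v)) :
    IsGraphic (G.edgeFinset.val.map (imb G)) := by
  have hG' : ∀ u v, G.Adj u v → G.degree u ≠ G.degree v := by
    intro u v huv heq
    have := hG u v huv
    rw [imb_mk, heq] at this
    simp at this
  -- index by edges
  let E := {e // e ∈ G.edgeFinset}
  obtain ⟨H, hH⟩ := Q22.EG.exists_graph (V := E) (fun e => imb G e.1)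
    (by
      have := even_imb G
      rwa [← sum_coe_sort] at this)
    (by
      intro A
      have h1 := key G hG' (A.map (Function.Embedding.subtype _)) (by
        intro e he
        obtain ⟨a, -, rfl⟩ := mem_map.1 he
        exact a.2)
      rw [sum_map, card_map] at h1
      have h2 : G.edgeFinset \ A.map (Function.Embedding.subtype _)
          = (Aᶜ).map (Function.Embedding.subtype (fun e => e ∈ G.edgeFinset)) := by
        ext e
        simp only [mem_sdiff, mem_map, mem_compl, Function.Embedding.coe_subtype, Subtype.exists,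
          exists_and_right, exists_eq_right]
        constructor
        · rintro ⟨h1, h2⟩
          exact ⟨h1, fun h3 => h2 ⟨h1, h3⟩⟩
        · rintro ⟨h1, h2⟩
          exact ⟨h1, fun ⟨_, h3⟩ => h2 h3⟩
      rw [h2, sum_map] at h1
      exact h1)
  let φ : E ≃ Fin (Fintype.card E) := Fintype.equivFin E
  refine ⟨Fintype.card E, H.comap φ.symm, ?_⟩
  have h1 : ∀ i : Fin (Fintype.card E), ((H.comap φ.symm).neighborSet i).ncard
      = imb G (φ.symm i).1 := by
    intro i
    rw [← hH (φ.symm i)]
    have : (H.comap φ.symm).neighborSet i = φ '' (H.neighborSet (φ.symm i)) := by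
      ext j
      simp only [SimpleGraph.mem_neighborSet, SimpleGraph.comap_adj, Set.mem_image]
      constructor
      · intro hj
        exact ⟨φ.symm j, hj, by simp⟩
      · rintro ⟨b, hb, rfl⟩
        simpa using hb
    rw [this, Set.ncard_image_of_injective _ φ.injective]
  simp only [h1]
  have h2 : (univ : Finset (Fin (Fintype.card E))).val.map (fun i => imb G (φ.symm i).1)
      = (univ : Finset E).val.map (fun e => imb G e.1) := by
    have h3 : (univ : Finset E) = univ.map φ.symm.toEmbedding := by simp
    rw [h3, map_val, Multiset.map_map]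
    rfl
  rw [h2]
  have h3 : G.edgeFinset.val = (univ : Finset E).val.map (fun e => e.1) := by
    have : G.edgeFinset = (univ : Finset E).map (Function.Embedding.subtype _) := by
      ext e; simp [E]
    exact congrArg Finset.val this
  rw [h3, Multiset.map_map]
  rfl

end Pool.Agent.Results.MP_440a65_co.ImbalanceGraphic
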